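import Mathlib

/-!
Definitions for the statement about simple `Z*`-algebras.
-/

namespace Pool.Agent.ZStar

/-- A C*-algebra `A ≠ 0` is simple if its only closed two-sided ideals are `0` and `A`. -/
def IsSimpleCStar (A : Type*) [NonUnitalCStarAlgebra A] : Prop :=
  Nontrivial A ∧ ∀ J : Submodule ℂ A, IsClosed (J : Set A) →
    (∀ a ∈ J, ∀ b : A, a * b ∈ J ∧ b * a ∈ J) → J = ⊥ ∨ J = ⊤

/-- `x` is a zero divisor: some nonzero `y` has `x y = 0` or `y x = 0`. -/
def IsZeroDivisor {A : Type*} [NonUnitalCStarAlgebra A] (x : A) : Prop :=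
  ∃ y : A, y ≠ 0 ∧ (x * y = 0 ∨ y * x = 0)

/-- A `Z*`-algebra: every positive element (every element of the form `b* b`) is a
zero divisor. -/
def IsZStarAlgebra (A : Type*) [NonUnitalCStarAlgebra A] : Prop :=
  ∀ b : A, IsZeroDivisor (star b * b)

end Pool.Agent.ZStar
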