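import Mathlib

/-!
The Cantor space `ℕ → Bool`, coordinate flips, sets determined by finitely many coordinates,
and the labelling `kap`.
-/

set_option linter.all false

open scoped Classical

noncomputable section

namespace Pool.Agent.ZStar

/-- The Cantor space. -/
abbrev Ca := ℕ → Bool

/-- Two points agree on the first `n` coordinates. -/
def Ag (n : ℕ) (t t' : Ca) : Prop := ∀ i < n, t i = t' i

lemma Ag.refl (n : ℕ) (t : Ca) : Ag n t t := fun _ _ => rfl
lemma Ag.symm {n : ℕ} {t t' : Ca} (h : Ag n t t') : Ag n t' t := fun i hi => (h i hi).symm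
lemma Ag.trans {n : ℕ} {t t' t'' : Ca} (h : Ag n t t') (h' : Ag n t' t'') : Ag n t t'' :=
  fun i hi => (h i hi).trans (h' i hi)
lemma Ag.mono {n m : ℕ} {t t' : Ca} (h : Ag n t t') (hm : m ≤ n) : Ag m t t' :=
  fun i hi => h i (lt_of_lt_of_le hi hm)

/-- Flip the coordinates in `F`. -/
def fl (F : Finset ℕ) (t : Ca) : Ca := fun n => if n ∈ F then !(t n) else t n

lemma fl_empty (t : Ca) : fl ∅ t = t := by
  funext n; simp [fl]

lemma fl_fl (F G : Finset ℕ) (t : Ca) : fl G (fl F t) = fl (symmDiff F G) t := by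
  funext n
  simp only [fl, Finset.mem_symmDiff]
  by_cases h1 : n ∈ F <;> by_cases h2 : n ∈ G <;> simp [h1, h2]

lemma fl_self (F : Finset ℕ) (t : Ca) : fl F (fl F t) = t := by
  rw [fl_fl, symmDiff_self]
  exact fl_empty t

lemma fl_inj {F : Finset ℕ} {t t' : Ca} (h : fl F t = fl F t') : t = t' := by
  rw [← fl_self F t, h, fl_self]

lemma Ag.fl {n : ℕ} {t t' : Ca} (h : Ag n t t') (F : Finset ℕ) : Ag n (fl F t) (fl F t') := by
  intro i hi
  simp only [ZStar.fl, h i hi]

/-- A set of points is determined if membership depends only on finitely many coordinates. -/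
def Det (W : Set Ca) : Prop := ∃ n, ∀ t t' : Ca, Ag n t t' → t ∈ W → t' ∈ W

lemma det_univ : Det Set.univ := ⟨0, fun _ _ _ _ => trivial⟩

lemma det_const (p : Prop) : Det {t | p} := ⟨0, fun _ _ _ h => h⟩

lemma Det.inter {W W' : Set Ca} (h : Det W) (h' : Det W') : Det (W ∩ W') := by
  obtain ⟨n, hn⟩ := h
  obtain ⟨m, hm⟩ := h'
  exact ⟨max n m, fun t t' ha ht => ⟨hn t t' (ha.mono (le_max_left _ _)) ht.1,
    hm t t' (ha.mono (le_max_right _ _)) ht.2⟩⟩

lemma Det.compl {W : Set Ca} (h : Det W) : Det Wᶜ := by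
  obtain ⟨n, hn⟩ := h
  exact ⟨n, fun t t' ha ht ht' => ht (hn t' t ha.symm ht')⟩

lemma Det.union {W W' : Set Ca} (h : Det W) (h' : Det W') : Det (W ∪ W') := by
  have := (h.compl.inter h'.compl).compl
  rwa [Set.compl_inter, compl_compl, compl_compl] at this

lemma Det.pre {W : Set Ca} (h : Det W) (F : Finset ℕ) : Det {t | fl F t ∈ W} := by
  obtain ⟨n, hn⟩ := h
  exact ⟨n, fun t t' ha ht => hn _ _ (ha.fl F) ht⟩

/-- The cylinder of `t` given by the first `n` coordinates. -/
def cyl (n : ℕ) (t : Ca) : Set Ca := {u | Ag n t u}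

lemma det_cyl (n : ℕ) (t : Ca) : Det (cyl n t) := ⟨n, fun _ _ ha h => h.trans ha⟩

/-- Codes for cylinders. -/
abbrev Code := ℕ × Finset ℕ

/-- The cylinder with a given code. -/
def V (c : Code) : Set Ca := {t | ∀ i < c.1, t i = decide (i ∈ c.2)}

lemma V_eq_cyl (c : Code) : V c = cyl c.1 (fun i => decide (i ∈ c.2)) := by
  ext t
  constructor
  · intro h i hi
    exact (h i hi).symm
  · intro h i hi
    exact (h i hi).symm

lemma det_V (c : Code) : Det (V c) := by
  rw [V_eq_cyl]; exact det_cyl _ _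

/-- The code of a cylinder. -/
def codeOf (n : ℕ) (t : Ca) : Code := (n, (Finset.range n).filter (fun i => t i = true))

lemma V_codeOf (n : ℕ) (t : Ca) : V (codeOf n t) = cyl n t := by
  ext u
  constructor
  · intro h i hi
    have := h i hi
    rw [this]
    simp only [codeOf] at hi ⊢
    by_cases hh : t i = true
    · simp [hh, hi]
    · simp [hh]
  · intro h i hi
    have := h i hi
    rw [← this]
    simp only [codeOf] at hi ⊢
    by_cases hh : t i = true
    · simp [hh, hi]
    · simp [hh]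

/-- Sequences of codes (with marks) whose cylinders have dense union. -/
def IdxI : Type := {f : ℕ → Code × Bool // ∀ (t : Ca) (n : ℕ), ∃ t', Ag n t t' ∧ ∃ m, t' ∈ V (f m).1}

/-- Finite sequences of marked codes. -/
abbrev IdxL : Type := List (Code × Bool)

/-- The index set. -/
abbrev Idx : Type := IdxL ⊕ IdxI

/-- The initial segment of length `n + 1`. -/
def seg (f : ℕ → Code × Bool) (n : ℕ) : IdxL := (List.range (n + 1)).map f

lemma seg_inj {f g : ℕ → Code × Bool} {n m : ℕ} (h : seg f n = seg g m) :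
    n = m ∧ ∀ k ≤ n, f k = g k := by
  unfold seg at h
  have h1 : n = m := by
    have := congrArg List.length h
    simpa using this
  subst h1
  refine ⟨rfl, fun k hk => ?_⟩
  rw [List.map_inj_left] at h
  exact h k (List.mem_range.2 (Nat.lt_succ_of_le hk))

lemma seg_congr {f g : ℕ → Code × Bool} {n : ℕ} (h : ∀ k ≤ n, f k = g k) : seg f n = seg g n := by
  unfold seg
  rw [List.map_inj_left]
  intro k hk
  exact h k (Nat.lt_succ_iff.1 (List.mem_range.1 hk))

/-- The labelling: an infinite sequence is labelled at `t` by its initial segment up to the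
first cylinder containing `t`. -/
def kap : Idx → Ca → Idx
  | Sum.inl l, _ => Sum.inl l
  | Sum.inr f, t => if h : ∃ n, t ∈ V (f.1 n).1 then Sum.inl (seg f.1 (Nat.find h)) else Sum.inr f

lemma kap_inl (l : IdxL) (t : Ca) : kap (Sum.inl l) t = Sum.inl l := rfl

lemma kap_inr_of_mem (f : IdxI) (t : Ca) (n : ℕ) (h : t ∈ V (f.1 n).1)
    (h' : ∀ m < n, t ∉ V (f.1 m).1) : kap (Sum.inr f) t = Sum.inl (seg f.1 n) := by
  have hex : ∃ n, t ∈ V (f.1 n).1 := ⟨n, h⟩
  have hf : Nat.find hex = n := (Nat.find_eq_iff hex).2 ⟨h, h'⟩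
  simp only [kap]
  rw [dif_pos hex, hf]

lemma kap_inr_cases (f : IdxI) (t : Ca) :
    (∃ n, t ∈ V (f.1 n).1 ∧ (∀ m < n, t ∉ V (f.1 m).1) ∧ kap (Sum.inr f) t = Sum.inl (seg f.1 n)) ∨
    ((∀ n, t ∉ V (f.1 n).1) ∧ kap (Sum.inr f) t = Sum.inr f) := by
  by_cases h : ∃ n, t ∈ V (f.1 n).1
  · left
    refine ⟨Nat.find h, Nat.find_spec h, fun m hm => Nat.find_min h hm, ?_⟩
    simp only [kap]
    rw [dif_pos h]
  · right
    refine ⟨fun n hn => h ⟨n, hn⟩, ?_⟩
    simp only [kap]
    rw [dif_neg h]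

/-- Membership in the first few cylinders is determined. -/
lemma exists_ag_V (f : ℕ → Code × Bool) (M : ℕ) :
    ∃ N, ∀ t t' : Ca, Ag N t t' → ∀ m ≤ M, t ∈ V (f m).1 → t' ∈ V (f m).1 := by
  induction M with
  | zero =>
    obtain ⟨N, hN⟩ := det_V (f 0).1
    refine ⟨N, fun t t' ha m hm h => ?_⟩
    obtain rfl : m = 0 := by omega
    exact hN t t' ha h
  | succ M ih =>
    obtain ⟨N, hN⟩ := ih
    obtain ⟨N', hN'⟩ := det_V (f (M + 1)).1
    refine ⟨max N N', fun t t' ha m hm h => ?_⟩
    rcases Nat.lt_or_ge m (M + 1) with h1 | h1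
    · exact hN t t' (ha.mono (le_max_left _ _)) m (by omega) h
    · obtain rfl : m = M + 1 := by omega
      exact hN' t t' (ha.mono (le_max_right _ _)) h

lemma exists_ag_kap (f : IdxI) (M : ℕ) : ∃ N, ∀ t t' : Ca, Ag N t t' → ∀ n ≤ M,
    kap (Sum.inr f) t = Sum.inl (seg f.1 n) → kap (Sum.inr f) t' = Sum.inl (seg f.1 n) := by
  obtain ⟨N, hN⟩ := exists_ag_V f.1 M
  refine ⟨N, fun t t' ha n hn h => ?_⟩
  rcases kap_inr_cases f t with ⟨k, hk1, hk2, hk3⟩ | ⟨_, h2⟩
  · rw [hk3] at h
    have hh := (seg_inj (Sum.inl.inj h)).1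
    subst hh
    exact kap_inr_of_mem f t' k (hN t t' ha k hn hk1)
      (fun m hm hmem => hk2 m hm (hN t' t ha.symm m (by omega) hmem))
  · rw [h2] at h
    exact absurd h (by simp)

/-- The coincidence set of two labels is determined. -/
lemma det_kap (i j : Idx) : Det {t | kap i t = kap j t} := by
  have key : ∀ (l : IdxL) (f : IdxI), ∃ N, ∀ t t' : Ca, Ag N t t' →
      kap (Sum.inr f) t = Sum.inl l → kap (Sum.inr f) t' = Sum.inl l := by
    intro l f
    obtain ⟨N, hN⟩ := exists_ag_kap f l.length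
    refine ⟨N, fun t t' ha h => ?_⟩
    rcases kap_inr_cases f t with ⟨k, hk1, hk2, hk3⟩ | ⟨_, h2⟩
    · have h3 : l = seg f.1 k := by
        rw [hk3] at h
        exact (Sum.inl.inj h).symm
      have h4 : k ≤ l.length := by
        rw [h3]; simp [seg]
      rw [h3]
      exact hN t t' ha k h4 hk3
    · rw [h2] at h
      exact absurd h (by simp)
  rcases i with l | f
  · rcases j with l' | g
    · exact ⟨0, fun _ _ _ h => h⟩
    · obtain ⟨N, hN⟩ := key l g
      refine ⟨N, fun t t' ha h => ?_⟩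
      have h' : kap (Sum.inr g) t = Sum.inl l := h.symm
      exact (hN t t' ha h').symm
  · rcases j with l' | g
    · obtain ⟨N, hN⟩ := key l' f
      refine ⟨N, fun t t' ha h => ?_⟩
      exact hN t t' ha h
    · by_cases hfg : f = g
      · subst hfg
        exact ⟨0, fun _ _ _ _ => rfl⟩
      · have hne : ∃ m, f.1 m ≠ g.1 m := by
          by_contra hcon
          push Not at hcon
          exact hfg (Subtype.ext (funext hcon))
        obtain ⟨m0, hm0⟩ := hne
        obtain ⟨N, hN⟩ := exists_ag_kap f m0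
        obtain ⟨N', hN'⟩ := exists_ag_kap g m0
        refine ⟨max N N', fun t t' ha h => ?_⟩
        have h : kap (Sum.inr f) t = kap (Sum.inr g) t := h
        rcases kap_inr_cases f t with ⟨k, hk1, hk2, hk3⟩ | ⟨_, h2⟩
        · rcases kap_inr_cases g t with ⟨k', hk1', hk2', hk3'⟩ | ⟨_, h2'⟩
          · rw [hk3, hk3'] at h
            have h5 := seg_inj (Sum.inl.inj h)
            obtain ⟨h6, h7⟩ := h5
            subst h6
            have h8 : k < m0 := by
              by_contra hcon
              exact hm0 (h7 m0 (by omega))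
            have h9 := hN t t' (ha.mono (le_max_left _ _)) k h8.le hk3
            have h10 := hN' t t' (ha.mono (le_max_right _ _)) k h8.le hk3'
            show kap (Sum.inr f) t' = kap (Sum.inr g) t'
            rw [h9, h10, seg_congr h7]
          · rw [hk3, h2'] at h
            exact absurd h (by simp)
        · rcases kap_inr_cases g t with ⟨k', hk1', hk2', hk3'⟩ | ⟨_, h2'⟩
          · rw [h2, hk3'] at h
            exact absurd h (by simp)
          · rw [h2, h2'] at h
            exact absurd (Sum.inr.inj h) hfg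

/-- The coincidence set of `inr f` with another label is covered by finitely many cylinders. -/
lemma kap_eq_cover (f : IdxI) (j : Idx) (h : j ≠ Sum.inr f) :
    ∃ N, ∀ t, kap j t = kap (Sum.inr f) t → ∃ n ≤ N, t ∈ V (f.1 n).1 := by
  rcases j with l | g
  · refine ⟨l.length, fun t ht => ?_⟩
    rcases kap_inr_cases f t with ⟨k, hk1, hk2, hk3⟩ | ⟨_, h2⟩
    · rw [hk3] at ht
      have h3 : l = seg f.1 k := Sum.inl.inj ht
      refine ⟨k, ?_, hk1⟩
      rw [h3]; simp [seg]
    · rw [h2] at ht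
      exact absurd ht (by simp [kap])
  · have hfg : f ≠ g := fun hh => h (by rw [hh])
    have hne : ∃ m, f.1 m ≠ g.1 m := by
      by_contra hcon
      push Not at hcon
      exact hfg (Subtype.ext (funext hcon))
    obtain ⟨m0, hm0⟩ := hne
    refine ⟨m0, fun t ht => ?_⟩
    rcases kap_inr_cases f t with ⟨k, hk1, hk2, hk3⟩ | ⟨_, h2⟩
    · rcases kap_inr_cases g t with ⟨k', hk1', hk2', hk3'⟩ | ⟨_, h2'⟩
      · rw [hk3, hk3'] at ht
        obtain ⟨h6, h7⟩ := seg_inj (Sum.inl.inj ht.symm)
        refine ⟨k, ?_, hk1⟩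
        by_contra hcon
        exact hm0 (h7 m0 (by omega))
      · rw [hk3, h2'] at ht
        exact absurd ht (by simp)
    · rcases kap_inr_cases g t with ⟨k', hk1', hk2', hk3'⟩ | ⟨_, h2'⟩
      · rw [h2, hk3'] at ht
        exact absurd ht (by simp)
      · rw [h2, h2'] at ht
        exact absurd (Sum.inr.inj ht).symm hfg

end Pool.Agent.ZStar
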