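import Mathlib

/-!
Operators on `ℓ²(S)` given by partial injections of the index set `S`, and matrix coefficients.
-/

set_option linter.all false

open scoped ENNReal Classical ComplexConjugate

noncomputable section

namespace Pool.Agent.ZStar

variable {S : Type*}

/-- The Hilbert space `ℓ²(S)`. -/
abbrev Hs (S : Type*) := lp (fun _ : S => ℂ) 2

lemma two_pos' : 0 < (2 : ℝ≥0∞).toReal := by norm_num

/-- The function `s ↦ ξ (φ s)` on `D`, `0` elsewhere. -/
def ptFun (D : Set S) (φ : S → S) (ξ : S → ℂ) : S → ℂ :=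
  fun s => if s ∈ D then ξ (φ s) else 0

lemma ptFun_sum_le {D : Set S} {φ : S → S} (h : Set.InjOn φ D) (ξ : Hs S) (s : Finset S) :
    ∑ i ∈ s, ‖ptFun D φ ξ i‖ ^ (2 : ℝ≥0∞).toReal ≤ ‖ξ‖ ^ (2 : ℝ≥0∞).toReal := by
  have h1 : ∑ i ∈ s, ‖ptFun D φ ξ i‖ ^ (2 : ℝ≥0∞).toReal
      = ∑ i ∈ s with i ∈ D, ‖ξ (φ i)‖ ^ (2 : ℝ≥0∞).toReal := by
    rw [Finset.sum_filter]
    apply Finset.sum_congr rfl
    intro i _
    unfold ptFun
    split_ifs with hi
    · rfl
    · rw [norm_zero, Real.zero_rpow (by norm_num)]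
  rw [h1]
  have h2 : ∑ i ∈ s with i ∈ D, ‖ξ (φ i)‖ ^ (2 : ℝ≥0∞).toReal
      = ∑ j ∈ (s.filter (· ∈ D)).image φ, ‖ξ j‖ ^ (2 : ℝ≥0∞).toReal := by
    rw [Finset.sum_image]
    intro a ha b hb hab
    have ha' := (Finset.mem_filter.1 (Finset.mem_coe.1 ha)).2
    have hb' := (Finset.mem_filter.1 (Finset.mem_coe.1 hb)).2
    exact h ha' hb' hab
  rw [h2]
  exact lp.sum_rpow_le_norm_rpow two_pos' ξ _

/-- The operator on `ℓ²(S)` given by a partial injection `φ` defined on `D`. -/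
def pt (D : Set S) (φ : S → S) (h : Set.InjOn φ D) : Hs S →L[ℂ] Hs S :=
  LinearMap.mkContinuous
    { toFun := fun ξ => ⟨ptFun D φ ξ, memℓp_gen' (C := ‖ξ‖ ^ (2 : ℝ≥0∞).toReal) (ptFun_sum_le h ξ)⟩
      map_add' := by
        intro ξ η
        apply lp.ext
        funext s
        simp only [ptFun, lp.coeFn_add, Pi.add_apply]
        split_ifs <;> simp
      map_smul' := by
        intro c ξ
        apply lp.ext
        funext s
        simp only [ptFun, lp.coeFn_smul, Pi.smul_apply, RingHom.id_apply]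
        split_ifs <;> simp } 1
    (by
      intro ξ
      rw [one_mul]
      exact lp.norm_le_of_forall_sum_le two_pos' (norm_nonneg _) (ptFun_sum_le h ξ))

lemma pt_apply {D : Set S} {φ : S → S} (h : Set.InjOn φ D) (ξ : Hs S) (s : S) :
    (pt D φ h ξ) s = if s ∈ D then ξ (φ s) else 0 := rfl

lemma norm_pt_le {D : Set S} {φ : S → S} (h : Set.InjOn φ D) : ‖pt D φ h‖ ≤ 1 :=
  LinearMap.mkContinuous_norm_le _ zero_le_one _

/-- Basis vectors. -/
def dl (s : S) : Hs S := lp.single 2 s (1 : ℂ)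

lemma dl_apply (s s' : S) : (dl s : Hs S) s' = if s' = s then 1 else 0 := by
  unfold dl
  by_cases h : s' = s
  · subst h
    simp
  · rw [lp.single_apply_ne _ _ _ h, if_neg h]

lemma norm_dl (s : S) : ‖(dl s : Hs S)‖ = 1 := by
  unfold dl
  rw [lp.norm_single (by norm_num)]
  simp

/-- Matrix coefficients. -/
def cf (a : Hs S →L[ℂ] Hs S) (s s' : S) : ℂ := (a (dl s')) s

lemma norm_cf_le (a : Hs S →L[ℂ] Hs S) (s s' : S) : ‖cf a s s'‖ ≤ ‖a‖ := by
  unfold cf
  calc ‖(a (dl s')) s‖ ≤ ‖a (dl s')‖ := lp.norm_apply_le_norm (by norm_num) _ _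
    _ ≤ ‖a‖ * ‖(dl s' : Hs S)‖ := a.le_opNorm _
    _ = ‖a‖ := by rw [norm_dl, mul_one]

lemma cf_add (a b : Hs S →L[ℂ] Hs S) (s s' : S) : cf (a + b) s s' = cf a s s' + cf b s s' := by
  simp [cf]

lemma cf_sub (a b : Hs S →L[ℂ] Hs S) (s s' : S) : cf (a - b) s s' = cf a s s' - cf b s s' := by
  simp [cf]

lemma cf_zero (s s' : S) : cf (0 : Hs S →L[ℂ] Hs S) s s' = 0 := by
  simp [cf]

lemma cf_smul (c : ℂ) (a : Hs S →L[ℂ] Hs S) (s s' : S) : cf (c • a) s s' = c * cf a s s' := by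
  simp [cf]

lemma cf_ext {a b : Hs S →L[ℂ] Hs S} (h : ∀ s s', cf a s s' = cf b s s') : a = b := by
  have h1 : ∀ s', a (dl s') = b (dl s') := by
    intro s'
    apply lp.ext
    funext s
    exact h s s'
  ext1 ξ
  have h2 := lp.hasSum_single (p := 2) (by norm_num) ξ
  have h3 : ∀ (x : S), (lp.single 2 x (ξ x) : Hs S) = (ξ x) • (dl x : Hs S) := by
    intro x
    unfold dl
    rw [← lp.single_smul]
    simp
  have h4 := (a.hasSum h2)
  have h5 := (b.hasSum h2)
  have h6 : (fun x => a (lp.single 2 x (ξ x))) = (fun x => b (lp.single 2 x (ξ x))) := by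
    funext x
    rw [h3, map_smul, map_smul, h1]
  rw [h6] at h4
  exact h4.unique h5

lemma cf_star (a : Hs S →L[ℂ] Hs S) (s s' : S) : cf (star a) s s' = conj (cf a s' s) := by
  unfold cf
  have h1 : ∀ (ξ : Hs S) (x : S), ξ x = inner ℂ (dl x : Hs S) ξ := by
    intro ξ x
    unfold dl
    rw [lp.inner_single_left]
    simp
  rw [h1 _ s, h1 _ s', ContinuousLinearMap.star_eq_adjoint, ContinuousLinearMap.adjoint_inner_right,
    inner_conj_symm]

lemma cf_pt {D : Set S} {φ : S → S} (h : Set.InjOn φ D) (s s' : S) :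
    cf (pt D φ h) s s' = if s ∈ D ∧ φ s = s' then 1 else 0 := by
  unfold cf
  rw [pt_apply, dl_apply]
  by_cases h1 : s ∈ D
  · simp [h1]
  · simp [h1]

lemma cf_pt_mul {D : Set S} {φ : S → S} (h : Set.InjOn φ D) (x : Hs S →L[ℂ] Hs S) (s s' : S) :
    cf (pt D φ h * x) s s' = if s ∈ D then cf x (φ s) s' else 0 := rfl

end Pool.Agent.ZStar
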