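import Mathlib
import Pool.Agent.ZStar.Pt
import Pool.Agent.ZStar.Kap

/-!
The generators and the C*-algebra.
-/

set_option linter.all false

open scoped Classical ComplexConjugate

noncomputable section

namespace Pool.Agent.ZStar

/-- The index set of the Hilbert space. -/
abbrev Sx : Type := Idx × Ca

/-- The Hilbert space. -/
abbrev HH : Type := Hs Sx

/-- Domain of a generator. -/
def zD (i : Idx) (W : Set Ca) : Set Sx := {s | kap i s.2 = s.1 ∧ s.2 ∈ W}

/-- The map of a generator. -/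
def zF (F : Finset ℕ) (j : Idx) : Sx → Sx := fun s => (kap j (fl F s.2), fl F s.2)

lemma z_inj (i : Idx) (W : Set Ca) (F : Finset ℕ) (j : Idx) : Set.InjOn (zF F j) (zD i W) := by
  rintro ⟨k, t⟩ ⟨h1, _⟩ ⟨k', t'⟩ ⟨h1', _⟩ h
  simp only [zF, Prod.mk.injEq] at h
  have h2 : t = t' := fl_inj h.2
  subst h2
  have h3 : k = k' := h1.symm.trans h1'
  rw [h3]

/-- The generators. -/
def Zo (i : Idx) (W : Set Ca) (F : Finset ℕ) (j : Idx) : HH →L[ℂ] HH :=
  pt (zD i W) (zF F j) (z_inj i W F j)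

lemma Zo_apply (i : Idx) (W : Set Ca) (F : Finset ℕ) (j : Idx) (ξ : HH) (k : Idx) (t : Ca) :
    (Zo i W F j ξ) (k, t) = if kap i t = k ∧ t ∈ W then ξ (kap j (fl F t), fl F t) else 0 := by
  unfold Zo
  rw [pt_apply]
  by_cases h : kap i t = k ∧ t ∈ W
  · rw [if_pos h, if_pos (show (k, t) ∈ zD i W from h)]
    rfl
  · rw [if_neg h, if_neg (show ¬ (k, t) ∈ zD i W from h)]

lemma norm_Zo_le (i : Idx) (W : Set Ca) (F : Finset ℕ) (j : Idx) : ‖Zo i W F j‖ ≤ 1 :=
  norm_pt_le _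

lemma cf_Zo (i : Idx) (W : Set Ca) (F : Finset ℕ) (j : Idx) (k k' : Idx) (t t' : Ca) :
    cf (Zo i W F j) (k, t) (k', t') =
      if (kap i t = k ∧ t ∈ W) ∧ (kap j (fl F t) = k' ∧ fl F t = t') then 1 else 0 := by
  unfold Zo
  rw [cf_pt]
  simp only [zD, zF, Set.mem_setOf_eq, Prod.mk.injEq]

lemma Zo_ext {i : Idx} {W W' : Set Ca} {F : Finset ℕ} {j : Idx} (h : ∀ t, t ∈ W ↔ t ∈ W') :
    Zo i W F j = Zo i W' F j := by
  have : W = W' := Set.ext h
  rw [this]

lemma Zo_empty {i : Idx} {W : Set Ca} {F : Finset ℕ} {j : Idx} (h : ∀ t, t ∉ W) :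
    Zo i W F j = 0 := by
  ext1 ξ
  apply lp.ext
  funext s
  obtain ⟨k, t⟩ := s
  rw [Zo_apply, if_neg (fun hh => h t hh.2)]
  simp

/-- The support of a product of generators. -/
def mW (W : Set Ca) (F : Finset ℕ) (j k : Idx) (W' : Set Ca) : Set Ca :=
  {t | t ∈ W ∧ kap j (fl F t) = kap k (fl F t) ∧ fl F t ∈ W'}

lemma Zo_mul (i : Idx) (W : Set Ca) (F : Finset ℕ) (j k : Idx) (W' : Set Ca) (F' : Finset ℕ)
    (l : Idx) : Zo i W F j * Zo k W' F' l = Zo i (mW W F j k W') (symmDiff F F') l := by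
  ext1 ξ
  apply lp.ext
  funext s
  obtain ⟨m, t⟩ := s
  have h1 : (Zo i W F j * Zo k W' F' l) ξ = Zo i W F j (Zo k W' F' l ξ) := rfl
  rw [h1, Zo_apply, Zo_apply, Zo_apply]
  by_cases h2 : kap i t = m
  · by_cases h3 : t ∈ W
    · rw [if_pos ⟨h2, h3⟩]
      by_cases h4 : kap k (fl F t) = kap j (fl F t) ∧ fl F t ∈ W'
      · rw [if_pos h4, if_pos ⟨h2, h3, h4.1.symm, h4.2⟩, fl_fl]
      · rw [if_neg h4, if_neg (fun hh => h4 ⟨hh.2.2.1.symm, hh.2.2.2⟩)]
    · rw [if_neg (fun hh => h3 hh.2), if_neg (fun hh => h3 hh.2.1)]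
  · rw [if_neg (fun hh => h2 hh.1), if_neg (fun hh => h2 hh.1)]

lemma Zo_star (i : Idx) (W : Set Ca) (F : Finset ℕ) (j : Idx) :
    star (Zo i W F j) = Zo j {t | fl F t ∈ W} F i := by
  apply cf_ext
  rintro ⟨k, t⟩ ⟨k', t'⟩
  rw [cf_star, cf_Zo, cf_Zo]
  by_cases h : (kap i t' = k' ∧ t' ∈ W) ∧ (kap j (fl F t') = k ∧ fl F t' = t)
  · rw [if_pos h]
    obtain ⟨⟨h1, h2⟩, h3, h4⟩ := h
    subst h4
    rw [if_pos]
    · simp
    · refine ⟨⟨h3, ?_⟩, ?_, ?_⟩
      · show fl F (fl F t') ∈ W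
        rwa [fl_self]
      · rwa [fl_self]
      · rw [fl_self]
  · rw [if_neg h, if_neg]
    · simp
    · rintro ⟨⟨h1, h2⟩, h3, h4⟩
      apply h
      subst h4
      refine ⟨⟨h3, h2⟩, ?_, ?_⟩
      · rwa [fl_self]
      · rw [fl_self]

lemma det_mW {W W' : Set Ca} (h : Det W) (h' : Det W') (F : Finset ℕ) (j k : Idx) :
    Det (mW W F j k W') :=
  h.inter (((det_kap j k).pre F).inter (h'.pre F))

/-- The set of generators. -/
def gens : Set (HH →L[ℂ] HH) := {x | ∃ i W F j, Det W ∧ x = Zo i W F j}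

lemma gen_mem {i : Idx} {W : Set Ca} {F : Finset ℕ} {j : Idx} (h : Det W) :
    Zo i W F j ∈ gens := ⟨i, W, F, j, h, rfl⟩

/-- The span of the generators, as a star-subalgebra. -/
def spanAlg : NonUnitalStarSubalgebra ℂ (HH →L[ℂ] HH) where
  carrier := (Submodule.span ℂ gens : Set (HH →L[ℂ] HH))
  add_mem' := fun ha hb => Submodule.add_mem _ ha hb
  zero_mem' := Submodule.zero_mem _
  smul_mem' := fun c x hx => Submodule.smul_mem _ c hx
  mul_mem' := by
    intro a b ha hb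
    refine Submodule.span_induction (p := fun x _ => x * b ∈ Submodule.span ℂ gens) ?_ ?_ ?_ ?_ ha
    · rintro x ⟨i, W, F, j, hW, rfl⟩
      refine Submodule.span_induction
        (p := fun y _ => Zo i W F j * y ∈ Submodule.span ℂ gens) ?_ ?_ ?_ ?_ hb
      · rintro y ⟨k, W', F', l, hW', rfl⟩
        rw [Zo_mul]
        exact Submodule.subset_span (gen_mem (det_mW hW hW' F j k))
      · rw [mul_zero]; exact Submodule.zero_mem _
      · intro x y _ _ hx hy
        rw [mul_add]; exact Submodule.add_mem _ hx hy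
      · intro c x _ hx
        rw [mul_smul_comm]; exact Submodule.smul_mem _ c hx
    · rw [zero_mul]; exact Submodule.zero_mem _
    · intro x y _ _ hx hy
      rw [add_mul]; exact Submodule.add_mem _ hx hy
    · intro c x _ hx
      rw [smul_mul_assoc]; exact Submodule.smul_mem _ c hx
  star_mem' := by
    intro a ha
    refine Submodule.span_induction (p := fun x _ => star x ∈ Submodule.span ℂ gens) ?_ ?_ ?_ ?_ ha
    · rintro x ⟨i, W, F, j, hW, rfl⟩
      rw [Zo_star]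
      exact Submodule.subset_span (gen_mem (hW.pre F))
    · rw [star_zero]; exact Submodule.zero_mem _
    · intro x y _ _ hx hy
      rw [star_add]; exact Submodule.add_mem _ hx hy
    · intro c x _ hx
      rw [star_smul]; exact Submodule.smul_mem _ _ hx

/-- The closed star-subalgebra. -/
def clAlg : NonUnitalStarSubalgebra ℂ (HH →L[ℂ] HH) := spanAlg.topologicalClosure

instance clAlg_closed : IsClosed (clAlg : Set (HH →L[ℂ] HH)) :=
  spanAlg.isClosed_topologicalClosure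

/-- The C*-algebra of the counterexample. -/
abbrev Alg : Type := clAlg

instance : NonUnitalCStarAlgebra Alg := inferInstance

lemma mem_clAlg_iff (x : HH →L[ℂ] HH) :
    x ∈ clAlg ↔ x ∈ closure (Submodule.span ℂ gens : Set (HH →L[ℂ] HH)) := Iff.rfl

lemma Zo_mem {i : Idx} {W : Set Ca} {F : Finset ℕ} {j : Idx} (h : Det W) :
    Zo i W F j ∈ clAlg := subset_closure (Submodule.subset_span (gen_mem h))

/-- Approximation by elements of the span. -/
lemma exists_approx {a : HH →L[ℂ] HH} (ha : a ∈ clAlg) {ε : ℝ} (hε : 0 < ε) :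
    ∃ y ∈ Submodule.span ℂ gens, ‖a - y‖ < ε := by
  rw [mem_clAlg_iff, Metric.mem_closure_iff] at ha
  obtain ⟨y, hy, hd⟩ := ha ε hε
  exact ⟨y, hy, by rwa [dist_eq_norm] at hd⟩

end Pool.Agent.ZStar
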