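import Mathlib
import Pool.Agent.ZStar.Defs
import Pool.Agent.ZStar.Gen

/-!
The algebra is simple.
-/

set_option linter.all false

open scoped Classical ComplexConjugate

noncomputable section

namespace Pool.Agent.ZStar

lemma triple (i k l j m : Idx) (C W D : Set Ca) (F F₀ : Finset ℕ) :
    Zo i C ∅ i * Zo k W F l * Zo j D F₀ m =
      Zo i {u | u ∈ C ∧ kap i u = kap k u ∧ u ∈ W ∧ kap l (fl F u) = kap j (fl F u) ∧ fl F u ∈ D}
        (symmDiff F F₀) m := by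
  have h0 : symmDiff (∅ : Finset ℕ) F = F := by
    rw [← Finset.bot_eq_empty, bot_symmDiff]
  rw [Zo_mul, Zo_mul, h0]
  apply Zo_ext
  intro t
  simp only [mW, Set.mem_setOf_eq, fl_empty, and_assoc]

lemma fl_ne {F G : Finset ℕ} {m : ℕ} (h : m ∈ symmDiff F G) (t : Ca) : fl F t m ≠ fl G t m := by
  rw [Finset.mem_symmDiff] at h
  rcases h with ⟨h1, h2⟩ | ⟨h1, h2⟩
  · simp [fl, h1, h2]
  · simp [fl, h1, h2]

lemma compress_gen (k l : Idx) (W : Set Ca) (hW : Det W) (F : Finset ℕ) (i j : Idx) (t : Ca)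
    (F₀ : Finset ℕ) :
    ∃ N, ∀ n, N ≤ n → Zo i (cyl n t) ∅ i * Zo k W F l * Zo j {u | fl F₀ u ∈ cyl n t} F₀ i =
      cf (Zo k W F l) (kap i t, t) (kap j (fl F₀ t), fl F₀ t) • Zo i (cyl n t) ∅ i := by
  by_cases hF : F = F₀
  · subst hF
    obtain ⟨N, hN⟩ := ((det_kap i k).inter hW).inter ((det_kap l j).pre F)
    refine ⟨N, fun n hn => ?_⟩
    rw [triple, symmDiff_self, cf_Zo]
    by_cases ht : t ∈ ({t | kap i t = kap k t} ∩ W) ∩ {t | fl F t ∈ {t | kap l t = kap j t}}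
    · rw [if_pos, one_smul]
      · apply Zo_ext
        intro u
        constructor
        · intro h
          exact h.1
        · intro h
          have h2 := hN t u (Ag.mono h hn) ht
          refine ⟨h, h2.1.1, h2.1.2, h2.2, ?_⟩
          show fl F (fl F u) ∈ cyl n t
          rwa [fl_self]
      · exact ⟨⟨ht.1.1.symm, ht.1.2⟩, ht.2, rfl⟩
    · rw [if_neg, zero_smul]
      · apply Zo_empty
        rintro u ⟨h1, h2, h3, h4, h5⟩
        exact ht (hN u t (Ag.mono h1 hn).symm ⟨⟨h2, h3⟩, h4⟩)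
      · rintro ⟨⟨h1, h2⟩, h3, _⟩
        exact ht ⟨⟨h1.symm, h2⟩, h3⟩
  · have hne : (symmDiff F F₀).Nonempty := by
      rw [Finset.nonempty_iff_ne_empty]
      intro h
      rw [← Finset.bot_eq_empty, symmDiff_eq_bot] at h
      exact hF h
    obtain ⟨m, hm⟩ := hne
    refine ⟨m + 1, fun n hn => ?_⟩
    rw [triple, cf_Zo, if_neg, zero_smul]
    · apply Zo_empty
      rintro u ⟨h1, h2, h3, h4, h5⟩
      have h6 : t m = u m := h1 m (by omega)
      have h7 : t m = fl F₀ (fl F u) m := h5 m (by omega)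
      rw [fl_fl] at h7
      rw [h6] at h7
      simp [fl, hm] at h7
    · rintro ⟨_, _, h⟩
      exact fl_ne hm t (congrFun h m)

lemma compress {y : HH →L[ℂ] HH} (hy : y ∈ Submodule.span ℂ gens) (i j : Idx) (t : Ca)
    (F₀ : Finset ℕ) :
    ∃ N, ∀ n, N ≤ n → Zo i (cyl n t) ∅ i * y * Zo j {u | fl F₀ u ∈ cyl n t} F₀ i =
      cf y (kap i t, t) (kap j (fl F₀ t), fl F₀ t) • Zo i (cyl n t) ∅ i := by
  refine Submodule.span_induction (p := fun y _ => ∃ N, ∀ n, N ≤ n →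
    Zo i (cyl n t) ∅ i * y * Zo j {u | fl F₀ u ∈ cyl n t} F₀ i =
      cf y (kap i t, t) (kap j (fl F₀ t), fl F₀ t) • Zo i (cyl n t) ∅ i) ?_ ?_ ?_ ?_ hy
  · rintro x ⟨k, W, F, l, hW, rfl⟩
    exact compress_gen k l W hW F i j t F₀
  · refine ⟨0, fun n _ => ?_⟩
    rw [cf_zero, zero_smul, mul_zero, zero_mul]
  · rintro x y _ _ ⟨N, hN⟩ ⟨N', hN'⟩
    refine ⟨max N N', fun n hn => ?_⟩
    rw [mul_add, add_mul, hN n (le_trans (le_max_left _ _) hn),
      hN' n (le_trans (le_max_right _ _) hn), cf_add, add_smul]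
  · rintro c x _ ⟨N, hN⟩
    refine ⟨N, fun n hn => ?_⟩
    rw [mul_smul_comm, smul_mul_assoc, hN n hn, cf_smul, mul_smul]

lemma cf_span_zero {s s' : Sx} (h : ∀ g ∈ gens, cf g s s' = 0) {y : HH →L[ℂ] HH}
    (hy : y ∈ Submodule.span ℂ gens) : cf y s s' = 0 := by
  refine Submodule.span_induction (p := fun y _ => cf y s s' = 0) ?_ ?_ ?_ ?_ hy
  · exact h
  · exact cf_zero _ _
  · intro x y _ _ hx hy
    rw [cf_add, hx, hy, add_zero]
  · intro c x _ hx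
    rw [cf_smul, hx, mul_zero]

lemma cf_cl_zero {s s' : Sx} (h : ∀ g ∈ gens, cf g s s' = 0) {a : HH →L[ℂ] HH}
    (ha : a ∈ clAlg) : cf a s s' = 0 := by
  by_contra hne
  have hpos : 0 < ‖cf a s s'‖ := norm_pos_iff.2 hne
  obtain ⟨y, hy, hay⟩ := exists_approx ha hpos
  have h1 : cf y s s' = 0 := cf_span_zero h hy
  have h2 : ‖cf (a - y) s s'‖ ≤ ‖a - y‖ := norm_cf_le _ _ _
  rw [cf_sub, h1, sub_zero] at h2
  linarith

/-- A nonzero coefficient of an element of the algebra is of the special form. -/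
lemma cf_support {a : HH →L[ℂ] HH} (ha : a ∈ clAlg) {k k' : Idx} {t t' : Ca}
    (h : cf a (k, t) (k', t') ≠ 0) :
    ∃ i j F, kap i t = k ∧ kap j (fl F t) = k' ∧ t' = fl F t := by
  by_contra hcon
  push Not at hcon
  apply h
  apply cf_cl_zero _ ha
  rintro g ⟨i, W, F, j, hW, rfl⟩
  rw [cf_Zo, if_neg]
  rintro ⟨⟨h1, _⟩, h2, h3⟩
  exact hcon i j F h1 h2 h3.symm

lemma cf_sum {ι : Type*} (s : Finset ι) (f : ι → (HH →L[ℂ] HH)) (x x' : Sx) :
    cf (∑ i ∈ s, f i) x x' = ∑ i ∈ s, cf (f i) x x' := by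
  induction s using Finset.induction_on with
  | empty => rw [Finset.sum_empty, Finset.sum_empty, cf_zero]
  | insert a s ha ih => rw [Finset.sum_insert ha, Finset.sum_insert ha, cf_add, ih]

lemma fl_mem_cyl_iff {n : ℕ} {t u : Ca} {G : Finset ℕ} (hG : G ⊆ Finset.range n) :
    fl G u ∈ cyl n t ↔ G = (Finset.range n).filter (fun x => u x ≠ t x) := by
  constructor
  · intro h
    ext x
    rw [Finset.mem_filter]
    constructor
    · intro hx
      have hx' := hG hx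
      refine ⟨hx', ?_⟩
      have := h x (Finset.mem_range.1 hx')
      simp only [fl, hx, if_true] at this
      rw [this]
      simp
    · rintro ⟨hx, hne⟩
      by_contra hxG
      have := h x (Finset.mem_range.1 hx)
      simp only [fl, hxG, if_false] at this
      exact hne this.symm
  · intro h x hx
    rw [h]
    by_cases hxu : u x = t x
    · simp [fl, hxu]
    · simp only [fl, Finset.mem_filter, Finset.mem_range, hx, ne_eq, hxu, not_false_eq_true,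
        and_self, if_true]
      cases hu : u x <;> cases ht : t x <;> simp_all

lemma sum_flips (k l : Idx) (n : ℕ) (t : Ca) :
    ∑ G ∈ (Finset.range n).powerset, Zo k {u | fl G u ∈ cyl n t} ∅ l = Zo k Set.univ ∅ l := by
  apply cf_ext
  rintro ⟨m, u⟩ ⟨m', u'⟩
  rw [cf_sum, cf_Zo]
  set G₀ : Finset ℕ := (Finset.range n).filter (fun x => u x ≠ t x) with hG₀
  have hmem : G₀ ∈ (Finset.range n).powerset := by
    rw [Finset.mem_powerset, hG₀]
    exact Finset.filter_subset _ _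
  rw [Finset.sum_eq_single_of_mem G₀ hmem]
  · rw [cf_Zo]
    have h1 : fl G₀ u ∈ cyl n t := (fl_mem_cyl_iff (Finset.mem_powerset.1 hmem)).2 hG₀
    have h2 : u ∈ {u | fl G₀ u ∈ cyl n t} := h1
    simp only [h2, Set.mem_univ]
  · intro G hG hne
    rw [cf_Zo, if_neg]
    rintro ⟨⟨_, h⟩, _⟩
    have h' : fl G u ∈ cyl n t := h
    rw [fl_mem_cyl_iff (Finset.mem_powerset.1 hG)] at h'
    exact hne (h'.trans hG₀.symm)

/-- The generator as an element of the algebra. -/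
def Za (i : Idx) (W : Set Ca) (F : Finset ℕ) (j : Idx) (h : Det W) : Alg := ⟨Zo i W F j, Zo_mem h⟩

lemma coe_Za (i : Idx) (W : Set Ca) (F : Finset ℕ) (j : Idx) (h : Det W) :
    ((Za i W F j h : Alg) : HH →L[ℂ] HH) = Zo i W F j := rfl

lemma Zo_idem (i : Idx) (W : Set Ca) : Zo i W ∅ i * Zo i W ∅ i = Zo i W ∅ i := by
  rw [Zo_mul, symmDiff_self]
  apply Zo_ext
  intro t
  simp [mW, fl_empty]

lemma Zo_idem2 (i j : Idx) (C : Set Ca) (F₀ : Finset ℕ) :
    Zo j {u | fl F₀ u ∈ C} F₀ i * Zo i C ∅ i = Zo j {u | fl F₀ u ∈ C} F₀ i := by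
  have h0 : symmDiff F₀ (∅ : Finset ℕ) = F₀ := by
    rw [← Finset.bot_eq_empty, symmDiff_bot]
  rw [Zo_mul, h0]
  apply Zo_ext
  intro t
  simp [mW]

/-- A closed ideal containing a nonzero element contains a diagonal generator. -/
lemma exists_diag (J : Submodule ℂ Alg) (hJ : IsClosed (J : Set Alg))
    (hI : ∀ a ∈ J, ∀ b : Alg, a * b ∈ J ∧ b * a ∈ J) (a : Alg) (ha : a ∈ J) (ha0 : a ≠ 0) :
    ∃ i n t, Za i (cyl n t) ∅ i (det_cyl n t) ∈ J := by
  -- a nonzero coefficient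
  have h1 : ∃ s s', cf (a : HH →L[ℂ] HH) s s' ≠ 0 := by
    by_contra hcon
    push Not at hcon
    apply ha0
    apply Subtype.ext
    apply cf_ext
    intro s s'
    rw [hcon]
    exact (cf_zero s s').symm
  obtain ⟨⟨k, t⟩, ⟨k', t'⟩, hcf⟩ := h1
  obtain ⟨i, j, F₀, rfl, rfl, rfl⟩ := cf_support a.2 hcf
  set β : ℂ := cf (a : HH →L[ℂ] HH) (kap i t, t) (kap j (fl F₀ t), fl F₀ t) with hβ
  have hβpos : 0 < ‖β‖ := norm_pos_iff.2 hcf
  obtain ⟨y, hy, hay⟩ := exists_approx a.2 (ε := ‖β‖ / 4) (by positivity)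
  obtain ⟨N, hN⟩ := compress hy i j t F₀
  have hN := hN N le_rfl
  set β' : ℂ := cf y (kap i t, t) (kap j (fl F₀ t), fl F₀ t) with hβ'
  have hdiff : ‖β - β'‖ ≤ ‖(a : HH →L[ℂ] HH) - y‖ := by
    rw [hβ, hβ', ← cf_sub]
    exact norm_cf_le _ _ _
  have hβ'big : 3 * ‖β‖ / 4 ≤ ‖β'‖ := by
    have := norm_sub_norm_le β β'
    linarith
  have hβ'pos : 0 < ‖β'‖ := by linarith
  have hβ'0 : β' ≠ 0 := norm_pos_iff.1 hβ'pos
  set e : Alg := Za i (cyl N t) ∅ i (det_cyl N t) with he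
  set z2 : Alg := Za j {u | fl F₀ u ∈ cyl N t} F₀ i ((det_cyl N t).pre F₀) with hz2
  have hee : e * e = e := Subtype.ext (Zo_idem i _)
  have hz2e : z2 * e = z2 := Subtype.ext (Zo_idem2 i j _ F₀)
  have hxJ : e * a * z2 ∈ J := (hI _ (hI a ha e).2 z2).1
  have hnorm_e : ‖e‖ ≤ 1 := norm_Zo_le _ _ _ _
  have hnorm_z2 : ‖z2‖ ≤ 1 := norm_Zo_le _ _ _ _
  have hdist : ‖β' • e - e * a * z2‖ ≤ ‖β‖ / 4 := by
    have h2 : ((β' • e - e * a * z2 : Alg) : HH →L[ℂ] HH)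
        = - (Zo i (cyl N t) ∅ i * ((a : HH →L[ℂ] HH) - y) * Zo j {u | fl F₀ u ∈ cyl N t} F₀ i) := by
      have h3 : ((β' • e - e * a * z2 : Alg) : HH →L[ℂ] HH)
        = β' • Zo i (cyl N t) ∅ i
          - Zo i (cyl N t) ∅ i * (a : HH →L[ℂ] HH) * Zo j {u | fl F₀ u ∈ cyl N t} F₀ i := rfl
      rw [h3, ← hN, mul_sub, sub_mul, neg_sub]
    have h4 : ‖β' • e - e * a * z2‖ = ‖((β' • e - e * a * z2 : Alg) : HH →L[ℂ] HH)‖ := rfl
    rw [h4, h2, norm_neg]
    calc ‖Zo i (cyl N t) ∅ i * ((a : HH →L[ℂ] HH) - y) * Zo j {u | fl F₀ u ∈ cyl N t} F₀ i‖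
        ≤ ‖Zo i (cyl N t) ∅ i * ((a : HH →L[ℂ] HH) - y)‖ * ‖Zo j {u | fl F₀ u ∈ cyl N t} F₀ i‖ :=
          norm_mul_le _ _
      _ ≤ (‖Zo i (cyl N t) ∅ i‖ * ‖(a : HH →L[ℂ] HH) - y‖) * 1 := by
          apply mul_le_mul (norm_mul_le _ _) (norm_Zo_le _ _ _ _) (norm_nonneg _) (by positivity)
      _ ≤ (1 * ‖(a : HH →L[ℂ] HH) - y‖) * 1 := by
          gcongr
          exact norm_Zo_le _ _ _ _
      _ ≤ ‖β‖ / 4 := by rw [one_mul, mul_one]; exact hay.le
  set d : Alg := β'⁻¹ • (e * a * z2) with hd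
  have hdJ : d ∈ J := J.smul_mem _ hxJ
  set r : Alg := e - d with hr
  have hrnorm : ‖r‖ ≤ 1 / 3 := by
    have h5 : r = β'⁻¹ • (β' • e - e * a * z2) := by
      rw [hr, hd, smul_sub, smul_smul, inv_mul_cancel₀ hβ'0, one_smul]
    rw [h5, norm_smul, norm_inv]
    rw [inv_mul_le_iff₀ hβ'pos]
    linarith
  have hre : r * e = r := by
    rw [hr, sub_mul, hee, hd, smul_mul_assoc, mul_assoc, hz2e]
  have key : ∀ n : ℕ, ∃ x ∈ J, ‖e - x‖ ≤ (1 / 3) ^ n := by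
    intro n
    induction n with
    | zero => exact ⟨0, J.zero_mem, by rw [sub_zero, pow_zero]; exact hnorm_e⟩
    | succ n ih =>
      obtain ⟨x, hx, hxn⟩ := ih
      refine ⟨d + r * x, J.add_mem hdJ (hI x hx r).2, ?_⟩
      have h6 : e - (d + r * x) = r * (e - x) := by
        rw [mul_sub, hre, hr]
        abel
      rw [h6]
      calc ‖r * (e - x)‖ ≤ ‖r‖ * ‖e - x‖ := norm_mul_le _ _
        _ ≤ (1 / 3) * (1 / 3) ^ n := by gcongr
        _ = (1 / 3) ^ (n + 1) := by rw [pow_succ]; ring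
  refine ⟨i, N, t, ?_⟩
  have hmem : e ∈ closure (J : Set Alg) := by
    rw [Metric.mem_closure_iff]
    intro ε hε
    obtain ⟨n, hn⟩ := exists_pow_lt_of_lt_one hε (show (1 / 3 : ℝ) < 1 by norm_num)
    obtain ⟨x, hx, hxn⟩ := key n
    exact ⟨x, hx, by rw [dist_eq_norm]; exact lt_of_le_of_lt hxn hn⟩
  rw [hJ.closure_eq] at hmem
  exact hmem

lemma full_mem (J : Submodule ℂ Alg)
    (hI : ∀ a ∈ J, ∀ b : Alg, a * b ∈ J ∧ b * a ∈ J) (i : Idx) (n : ℕ) (t : Ca)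
    (h : Za i (cyl n t) ∅ i (det_cyl n t) ∈ J) (k l : Idx) :
    Za k Set.univ ∅ l det_univ ∈ J := by
  have h1 : ∀ G : Finset ℕ, Za k {u | fl G u ∈ cyl n t} ∅ l ((det_cyl n t).pre G) ∈ J := by
    intro G
    have h2 : Za k {u | fl G u ∈ cyl n t} ∅ l ((det_cyl n t).pre G) =
        Za k {u | fl G u ∈ cyl n t} G i ((det_cyl n t).pre G) *
          Za i (cyl n t) ∅ i (det_cyl n t) * Za i (cyl n t) G l (det_cyl n t) := by
      apply Subtype.ext
      show Zo k {u | fl G u ∈ cyl n t} ∅ l =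
        Zo k {u | fl G u ∈ cyl n t} G i * Zo i (cyl n t) ∅ i * Zo i (cyl n t) G l
      rw [Zo_idem2, Zo_mul, symmDiff_self]
      apply Zo_ext
      intro u
      simp [mW]
    rw [h2]
    exact (hI _ (hI _ h _).2 _).1
  have h3 : Za k Set.univ ∅ l det_univ =
      ∑ G ∈ (Finset.range n).powerset, Za k {u | fl G u ∈ cyl n t} ∅ l ((det_cyl n t).pre G) := by
    apply Subtype.ext
    rw [AddSubmonoidClass.coe_finsetSum]
    exact (sum_flips k l n t).symm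
  rw [h3]
  exact J.sum_mem (fun G _ => h1 G)

lemma gen_mem_J (J : Submodule ℂ Alg)
    (hI : ∀ a ∈ J, ∀ b : Alg, a * b ∈ J ∧ b * a ∈ J)
    (h : ∀ k, Za k Set.univ ∅ k det_univ ∈ J) (k : Idx) (W : Set Ca) (F : Finset ℕ) (l : Idx)
    (hW : Det W) : Za k W F l hW ∈ J := by
  have h1 : Za k W F l hW = Za k Set.univ ∅ k det_univ * Za k W F l hW := by
    apply Subtype.ext
    show Zo k W F l = Zo k Set.univ ∅ k * Zo k W F l
    have h0 : symmDiff (∅ : Finset ℕ) F = F := by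
      rw [← Finset.bot_eq_empty, bot_symmDiff]
    rw [Zo_mul, h0]
    apply Zo_ext
    intro u
    simp [mW, fl_empty]
  rw [h1]
  exact (hI _ (h k) _).1

lemma span_mem_J (J : Submodule ℂ Alg)
    (h : ∀ (k : Idx) (W : Set Ca) (F : Finset ℕ) (l : Idx) (hW : Det W), Za k W F l hW ∈ J)
    {y : HH →L[ℂ] HH} (hy : y ∈ Submodule.span ℂ gens) :
    ∃ hc : y ∈ clAlg, (⟨y, hc⟩ : Alg) ∈ J := by
  refine Submodule.span_induction (p := fun y _ => ∃ hc : y ∈ clAlg, (⟨y, hc⟩ : Alg) ∈ J)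
    ?_ ?_ ?_ ?_ hy
  · rintro x ⟨k, W, F, l, hW, rfl⟩
    exact ⟨Zo_mem hW, h k W F l hW⟩
  · exact ⟨zero_mem _, J.zero_mem⟩
  · rintro x y _ _ ⟨hx, hx'⟩ ⟨hy, hy'⟩
    exact ⟨add_mem hx hy, J.add_mem hx' hy'⟩
  · rintro c x _ ⟨hx, hx'⟩
    exact ⟨SMulMemClass.smul_mem c hx, J.smul_mem c hx'⟩

lemma eq_top_of_gens (J : Submodule ℂ Alg) (hJ : IsClosed (J : Set Alg))
    (h : ∀ (k : Idx) (W : Set Ca) (F : Finset ℕ) (l : Idx) (hW : Det W), Za k W F l hW ∈ J) :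
    J = ⊤ := by
  rw [eq_top_iff]
  intro a _
  have hmem : a ∈ closure (J : Set Alg) := by
    rw [Metric.mem_closure_iff]
    intro ε hε
    obtain ⟨y, hy, hay⟩ := exists_approx a.2 hε
    obtain ⟨hc, hyJ⟩ := span_mem_J J h hy
    refine ⟨⟨y, hc⟩, hyJ, ?_⟩
    rw [dist_eq_norm]
    exact hay
  rw [hJ.closure_eq] at hmem
  exact hmem

lemma Za_ne_zero (l : IdxL) : Za (Sum.inl l) Set.univ ∅ (Sum.inl l) det_univ ≠ 0 := by
  intro h
  have h1 : cf (Zo (Sum.inl l) Set.univ ∅ (Sum.inl l)) (Sum.inl l, fun _ => true)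
      (Sum.inl l, fun _ => true) = 1 := by
    rw [cf_Zo, if_pos]
    simp [kap, fl_empty]
  have h2 : Zo (Sum.inl l) Set.univ ∅ (Sum.inl l) = 0 := congrArg Subtype.val h
  rw [h2, cf_zero] at h1
  exact zero_ne_one h1

theorem simple : IsSimpleCStar Alg := by
  refine ⟨⟨_, 0, Za_ne_zero []⟩, fun J hJ hI => ?_⟩
  by_cases hb : J = ⊥
  · exact Or.inl hb
  · right
    obtain ⟨a, ha, ha0⟩ := (Submodule.ne_bot_iff J).1 hb
    obtain ⟨i, n, t, hmem⟩ := exists_diag J hJ hI a ha ha0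
    exact eq_top_of_gens J hJ
      (fun k W F l hW => gen_mem_J J hI (fun k => full_mem J hI i n t hmem k k) k W F l hW)

end Pool.Agent.ZStar
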