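import Mathlib
import Pool.Agent.ZStar.Defs
import Pool.Agent.ZStar.Gen
import Pool.Agent.ZStar.Simple

/-!
The algebra is not a `Z*`-algebra.
-/

set_option linter.all false

open scoped Classical ComplexConjugate

noncomputable section

namespace Pool.Agent.ZStar

lemma cf_locconst_gen (k l : Idx) (W : Set Ca) (hW : Det W) (G : Finset ℕ) (i j : Idx)
    (F : Finset ℕ) : ∃ N, ∀ t t', Ag N t t' →
      cf (Zo k W G l) (kap i t, t) (kap j (fl F t), fl F t) =
      cf (Zo k W G l) (kap i t', t') (kap j (fl F t'), fl F t') := by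
  by_cases hG : G = F
  · subst hG
    obtain ⟨N, hN⟩ := ((det_kap k i).inter hW).inter ((det_kap l j).pre G)
    refine ⟨N, fun t t' ha => ?_⟩
    rw [cf_Zo, cf_Zo]
    by_cases ht : t ∈ ({t | kap k t = kap i t} ∩ W) ∩ {t | fl G t ∈ {t | kap l t = kap j t}}
    · have ht' := hN t t' ha ht
      rw [if_pos ⟨⟨ht.1.1, ht.1.2⟩, ht.2, rfl⟩, if_pos ⟨⟨ht'.1.1, ht'.1.2⟩, ht'.2, rfl⟩]
    · rw [if_neg, if_neg]
      · rintro ⟨⟨h1, h2⟩, h3, _⟩
        exact ht (hN t' t ha.symm ⟨⟨h1, h2⟩, h3⟩)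
      · rintro ⟨⟨h1, h2⟩, h3, _⟩
        exact ht ⟨⟨h1, h2⟩, h3⟩
  · have hne : (symmDiff G F).Nonempty := by
      rw [Finset.nonempty_iff_ne_empty]
      intro h
      rw [← Finset.bot_eq_empty, symmDiff_eq_bot] at h
      exact hG h
    obtain ⟨m, hm⟩ := hne
    refine ⟨0, fun t t' ha => ?_⟩
    rw [cf_Zo, cf_Zo, if_neg, if_neg]
    · rintro ⟨_, _, h⟩
      exact fl_ne hm t' (congrFun h m)
    · rintro ⟨_, _, h⟩
      exact fl_ne hm t (congrFun h m)

lemma cf_locconst {y : HH →L[ℂ] HH} (hy : y ∈ Submodule.span ℂ gens) (i j : Idx)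
    (F : Finset ℕ) : ∃ N, ∀ t t', Ag N t t' →
      cf y (kap i t, t) (kap j (fl F t), fl F t) =
      cf y (kap i t', t') (kap j (fl F t'), fl F t') := by
  refine Submodule.span_induction (p := fun y _ => ∃ N, ∀ t t', Ag N t t' →
      cf y (kap i t, t) (kap j (fl F t), fl F t) =
      cf y (kap i t', t') (kap j (fl F t'), fl F t')) ?_ ?_ ?_ ?_ hy
  · rintro x ⟨k, W, G, l, hW, rfl⟩
    exact cf_locconst_gen k l W hW G i j F
  · exact ⟨0, fun t t' _ => by rw [cf_zero, cf_zero]⟩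
  · rintro x y _ _ ⟨N, hN⟩ ⟨N', hN'⟩
    refine ⟨max N N', fun t t' ha => ?_⟩
    rw [cf_add, cf_add, hN t t' (ha.mono (le_max_left _ _)), hN' t t' (ha.mono (le_max_right _ _))]
  · rintro c x _ ⟨N, hN⟩
    exact ⟨N, fun t t' ha => by rw [cf_smul, cf_smul, hN t t' ha]⟩

/-- If all coefficients in the rows `inl l` vanish, the element is zero. -/
lemma eq_zero_of_rows {a : HH →L[ℂ] HH} (ha : a ∈ clAlg)
    (h : ∀ (l : IdxL) (t : Ca) (s' : Sx), cf a (Sum.inl l, t) s' = 0) : a = 0 := by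
  apply cf_ext
  rintro ⟨k, t⟩ ⟨k', t'⟩
  rw [cf_zero]
  by_contra hne
  obtain ⟨i, j, F, rfl, rfl, rfl⟩ := cf_support ha hne
  rcases i with l | f
  · exact hne (h l t _)
  · have hpos : 0 < ‖cf a (kap (Sum.inr f) t, t) (kap j (fl F t), fl F t)‖ / 2 := by
      have := norm_pos_iff.2 hne
      positivity
    obtain ⟨y, hy, hay⟩ := exists_approx ha hpos
    obtain ⟨N, hN⟩ := cf_locconst hy (Sum.inr f) j F
    obtain ⟨t', ht', m, hm⟩ := f.2 t N
    have h1 : ∃ l, kap (Sum.inr f) t' = Sum.inl l := by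
      rcases kap_inr_cases f t' with ⟨k, _, _, hk3⟩ | ⟨h2, _⟩
      · exact ⟨_, hk3⟩
      · exact absurd hm (h2 m)
    obtain ⟨l, hl⟩ := h1
    have h2 : cf a (kap (Sum.inr f) t', t') (kap j (fl F t'), fl F t') = 0 := by
      rw [hl]; exact h l t' _
    have h3 := hN t t' ht'
    have h4 : ‖cf (a - y) (kap (Sum.inr f) t', t') (kap j (fl F t'), fl F t')‖ ≤ ‖a - y‖ :=
      norm_cf_le _ _ _
    have h5 : ‖cf (a - y) (kap (Sum.inr f) t, t) (kap j (fl F t), fl F t)‖ ≤ ‖a - y‖ :=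
      norm_cf_le _ _ _
    rw [cf_sub] at h4 h5
    rw [h2, zero_sub, norm_neg, ← h3] at h4
    have h6 := norm_sub_norm_le (cf a (kap (Sum.inr f) t, t) (kap j (fl F t), fl F t))
      (cf y (kap (Sum.inr f) t, t) (kap j (fl F t), fl F t))
    linarith

/-- The diagonal projections. -/
def Zl (l : IdxL) : Alg := Za (Sum.inl l) Set.univ ∅ (Sum.inl l) det_univ

lemma Zl_mul_self (l : IdxL) : Zl l * Zl l = Zl l := Subtype.ext (Zo_idem _ _)

lemma Zl_mul_ne {l l' : IdxL} (h : l ≠ l') : Zl l * Zl l' = 0 := by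
  apply Subtype.ext
  show Zo (Sum.inl l) Set.univ ∅ (Sum.inl l) * Zo (Sum.inl l') Set.univ ∅ (Sum.inl l') = 0
  rw [Zo_mul]
  apply Zo_empty
  rintro t ⟨_, h1, _⟩
  exact h (Sum.inl.inj h1)

lemma norm_Zl_le (l : IdxL) : ‖Zl l‖ ≤ 1 := norm_Zo_le _ _ _ _

/-- The strictly positive element. -/
def bb : Alg := ∑' l : IdxL, ((1 / 2 : ℂ) ^ (Encodable.encode l)) • Zl l

lemma bb_summable : Summable (fun l : IdxL => ((1 / 2 : ℂ) ^ (Encodable.encode l)) • Zl l) := by
  apply Summable.of_norm_bounded (g := fun l : IdxL => (1 / 2 : ℝ) ^ (Encodable.encode l))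
    summable_geometric_two_encode
  intro l
  rw [norm_smul, norm_pow]
  have h1 : ‖(1 / 2 : ℂ)‖ = 1 / 2 := by norm_num
  rw [h1]
  calc (1 / 2 : ℝ) ^ Encodable.encode l * ‖Zl l‖ ≤ (1 / 2 : ℝ) ^ Encodable.encode l * 1 := by
        gcongr
        exact norm_Zl_le l
    _ = _ := mul_one _

lemma Zl_mul_bb (l : IdxL) : Zl l * bb = ((1 / 2 : ℂ) ^ (Encodable.encode l)) • Zl l := by
  have h1 := (bb_summable.hasSum).mul_left (Zl l)
  have h2 : (fun l' : IdxL => Zl l * (((1 / 2 : ℂ) ^ (Encodable.encode l')) • Zl l')) =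
      fun l' => if l' = l then ((1 / 2 : ℂ) ^ (Encodable.encode l)) • Zl l else 0 := by
    funext l'
    by_cases h : l' = l
    · subst h
      rw [if_pos rfl, mul_smul_comm, Zl_mul_self]
    · rw [if_neg h, mul_smul_comm, Zl_mul_ne (Ne.symm h), smul_zero]
  rw [h2] at h1
  exact h1.unique (hasSum_ite_eq l _)

lemma bb_mul_eq_zero {y : Alg} (h : bb * y = 0) : y = 0 := by
  have h1 : ∀ l, Zl l * y = 0 := by
    intro l
    have h2 : ((1 / 2 : ℂ) ^ (Encodable.encode l)) • (Zl l * y) = 0 := by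
      rw [← smul_mul_assoc, ← Zl_mul_bb, mul_assoc, h, mul_zero]
    have h3 : ((1 / 2 : ℂ) ^ (Encodable.encode l)) ≠ 0 := pow_ne_zero _ (by norm_num)
    exact (smul_eq_zero.1 h2).resolve_left h3
  apply Subtype.ext
  apply eq_zero_of_rows y.2
  intro l t s'
  have h2 : cf (Zo (Sum.inl l) Set.univ ∅ (Sum.inl l) * (y : HH →L[ℂ] HH)) (Sum.inl l, t) s' = 0 := by
    have h3 : Zo (Sum.inl l) Set.univ ∅ (Sum.inl l) * (y : HH →L[ℂ] HH) = 0 :=
      congrArg Subtype.val (h1 l)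
    rw [h3, cf_zero]
  unfold Zo at h2
  rw [cf_pt_mul, if_pos] at h2
  · simpa [zF, kap, fl_empty] using h2
  · exact ⟨rfl, trivial⟩

theorem not_zstar : ¬ IsZStarAlgebra Alg := by
  intro h
  have key : ∀ y : Alg, star bb * bb * y = 0 → y = 0 := by
    intro y hy
    apply bb_mul_eq_zero
    have h1 : star (bb * y) * (bb * y) = 0 := by
      rw [star_mul, mul_assoc, ← mul_assoc (star bb), hy, mul_zero]
    exact CStarRing.star_mul_self_eq_zero_iff (bb * y) |>.1 h1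
  obtain ⟨y, hy0, hy | hy⟩ := h bb
  · exact hy0 (key y hy)
  · apply hy0
    have h1 : star bb * bb * star y = 0 := by
      have h2 := congrArg star hy
      rw [star_mul, star_mul, star_star, star_zero] at h2
      exact h2
    have h3 := key _ h1
    exact star_eq_zero.1 h3

end Pool.Agent.ZStar
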