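import Mathlib
import Pool.Agent.ZStar.Defs
import Pool.Agent.ZStar.Gen
import Pool.Agent.ZStar.Simple

/-!
In every representation, every operator in the image has a nonzero kernel.
-/

set_option linter.all false

open scoped Classical ComplexConjugate Topology
open Filter

noncomputable section

namespace Pool.Agent.ZStar

/-- The complement of the first `N` cylinders. -/
def U (c : ℕ → Code) (N : ℕ) : Set Ca := {t | ∀ n < N, t ∉ V (c n)}

lemma U_zero (c : ℕ → Code) : U c 0 = Set.univ := by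
  ext t
  simp [U]

lemma U_succ (c : ℕ → Code) (N : ℕ) : U c (N + 1) = U c N ∩ (V (c N))ᶜ := by
  ext t
  constructor
  · intro h
    exact ⟨fun n hn => h n (by omega), h N (by omega)⟩
  · rintro ⟨h1, h2⟩ n hn
    rcases Nat.lt_or_ge n N with h3 | h3
    · exact h1 n h3
    · obtain rfl : n = N := by omega
      exact h2

lemma det_U (c : ℕ → Code) (N : ℕ) : Det (U c N) := by
  induction N with
  | zero => rw [U_zero]; exact det_univ
  | succ N ih => rw [U_succ]; exact ih.inter (det_V _).compl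

lemma U_anti (c : ℕ → Code) {N M : ℕ} (h : N ≤ M) : U c M ⊆ U c N :=
  fun _ ht n hn => ht n (lt_of_lt_of_le hn h)

/-- The codes of a sequence. -/
def cd (f : IdxI) : ℕ → Code := fun n => (f.1 n).1

/-- The truncated projections. -/
def qq (f : IdxI) (N : ℕ) : Alg := Za (Sum.inr f) (U (cd f) N) ∅ (Sum.inr f) (det_U _ _)

lemma bad_gen (k : Idx) (W : Set Ca) (F : Finset ℕ) (l : Idx) (f : IdxI) (h : l ≠ Sum.inr f) :
    ∃ N₀, ∀ N, N₀ ≤ N → Zo k W F l * Zo (Sum.inr f) (U (cd f) N) ∅ (Sum.inr f) = 0 := by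
  obtain ⟨N₀, hN⟩ := kap_eq_cover f l h
  refine ⟨N₀ + 1, fun N hNN => ?_⟩
  rw [Zo_mul]
  apply Zo_empty
  rintro t ⟨_, h2, h3⟩
  obtain ⟨n, hn, hmem⟩ := hN _ h2
  exact h3 n (by omega) hmem

lemma bad_span {y : HH →L[ℂ] HH} (hy : y ∈ Submodule.span ℂ gens) :
    Set.Countable {f : IdxI | ¬ ∃ N₀, ∀ N, N₀ ≤ N →
      y * Zo (Sum.inr f) (U (cd f) N) ∅ (Sum.inr f) = 0} := by
  refine Submodule.span_induction (p := fun y _ => Set.Countable {f : IdxI | ¬ ∃ N₀, ∀ N, N₀ ≤ N →
      y * Zo (Sum.inr f) (U (cd f) N) ∅ (Sum.inr f) = 0}) ?_ ?_ ?_ ?_ hy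
  · rintro x ⟨k, W, F, l, hW, rfl⟩
    have h1 : {f : IdxI | ¬ ∃ N₀, ∀ N, N₀ ≤ N →
      Zo k W F l * Zo (Sum.inr f) (U (cd f) N) ∅ (Sum.inr f) = 0} ⊆ {f | l = Sum.inr f} := by
      intro f hf
      by_contra hne
      exact hf (bad_gen k W F l f hne)
    have h2 : Set.Subsingleton {f : IdxI | l = Sum.inr f} := by
      intro f hf g hg
      have h3 : (Sum.inr f : Idx) = Sum.inr g := hf.symm.trans hg
      exact Sum.inr.inj h3
    exact h2.countable.mono h1
  · apply Set.Countable.mono _ Set.countable_empty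
    intro f hf
    exact hf ⟨0, fun N _ => zero_mul _⟩
  · intro x y _ _ hx hy
    apply Set.Countable.mono _ (hx.union hy)
    intro f hf
    by_contra hcon
    rw [Set.mem_union, not_or] at hcon
    obtain ⟨h1, h2⟩ := hcon
    simp only [Set.mem_setOf_eq, not_not] at h1 h2
    obtain ⟨N, hN⟩ := h1
    obtain ⟨N', hN'⟩ := h2
    refine hf ⟨max N N', fun n hn => ?_⟩
    rw [add_mul, hN n (le_trans (le_max_left _ _) hn), hN' n (le_trans (le_max_right _ _) hn),
      add_zero]
  · intro c x _ hx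
    apply Set.Countable.mono _ hx
    intro f hf hcon
    obtain ⟨N, hN⟩ := hcon
    exact hf ⟨N, fun n hn => by rw [smul_mul_assoc, hN n hn, smul_zero]⟩

lemma bad_alg (a : Alg) :
    Set.Countable {f : IdxI | ¬ Tendsto (fun N => ‖a * qq f N‖) atTop (𝓝 0)} := by
  have h1 : ∀ m : ℕ, ∃ y ∈ Submodule.span ℂ gens, ‖(a : HH →L[ℂ] HH) - y‖ < 1 / ((m : ℝ) + 1) :=
    fun m => exists_approx a.2 (by positivity)
  choose y hy hay using h1
  apply Set.Countable.mono _ (Set.countable_iUnion (fun m => bad_span (hy m)))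
  intro f hf
  by_contra hcon
  rw [Set.mem_iUnion, not_exists] at hcon
  apply hf
  rw [Metric.tendsto_atTop]
  intro ε hε
  obtain ⟨m, hm⟩ := exists_nat_one_div_lt hε
  have h2 := hcon m
  simp only [Set.mem_setOf_eq, not_not] at h2
  obtain ⟨N₀, hN₀⟩ := h2
  refine ⟨N₀, fun N hN => ?_⟩
  rw [dist_zero_right, norm_norm]
  have h3 : ‖a * qq f N‖ = ‖(a : HH →L[ℂ] HH) * Zo (Sum.inr f) (U (cd f) N) ∅ (Sum.inr f)‖ := rfl
  rw [h3]
  have h4 : (a : HH →L[ℂ] HH) * Zo (Sum.inr f) (U (cd f) N) ∅ (Sum.inr f)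
      = ((a : HH →L[ℂ] HH) - y m) * Zo (Sum.inr f) (U (cd f) N) ∅ (Sum.inr f) := by
    rw [sub_mul, hN₀ N hN, sub_zero]
  rw [h4]
  calc ‖((a : HH →L[ℂ] HH) - y m) * Zo (Sum.inr f) (U (cd f) N) ∅ (Sum.inr f)‖
      ≤ ‖(a : HH →L[ℂ] HH) - y m‖ * ‖Zo (Sum.inr f) (U (cd f) N) ∅ (Sum.inr f)‖ := norm_mul_le _ _
    _ ≤ ‖(a : HH →L[ℂ] HH) - y m‖ * 1 := by
        gcongr
        exact norm_Zo_le _ _ _ _
    _ < ε := by rw [mul_one]; exact lt_trans (hay m) hm

lemma Zo_union {i : Idx} {W W₁ W₂ : Set Ca} {F : Finset ℕ} {j : Idx}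
    (h : ∀ t, t ∈ W ↔ t ∈ W₁ ∨ t ∈ W₂) (hd : ∀ t, t ∈ W₁ → t ∉ W₂) :
    Zo i W F j = Zo i W₁ F j + Zo i W₂ F j := by
  ext1 ξ
  apply lp.ext
  funext s
  obtain ⟨k, t⟩ := s
  have h1 : ((Zo i W₁ F j + Zo i W₂ F j) ξ : Sx → ℂ) (k, t) =
    (Zo i W₁ F j ξ : Sx → ℂ) (k, t) + (Zo i W₂ F j ξ : Sx → ℂ) (k, t) := rfl
  rw [h1, Zo_apply, Zo_apply, Zo_apply]
  by_cases hk : kap i t = k
  · by_cases h2 : t ∈ W₁
    · rw [if_pos ⟨hk, (h t).2 (Or.inl h2)⟩, if_pos ⟨hk, h2⟩, if_neg (fun hh => hd t h2 hh.2), add_zero]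
    · by_cases h3 : t ∈ W₂
      · rw [if_pos ⟨hk, (h t).2 (Or.inr h3)⟩, if_neg (fun hh => h2 hh.2), if_pos ⟨hk, h3⟩, zero_add]
      · rw [if_neg (fun hh => ((h t).1 hh.2).elim h2 h3), if_neg (fun hh => h2 hh.2),
          if_neg (fun hh => h3 hh.2), add_zero]
  · rw [if_neg (fun hh => hk hh.1), if_neg (fun hh => hk hh.1), if_neg (fun hh => hk hh.1), add_zero]

lemma Za_union {i : Idx} {W W₁ W₂ : Set Ca} {F : Finset ℕ} {j : Idx} (hW : Det W) (h1 : Det W₁)
    (h2 : Det W₂) (h : ∀ t, t ∈ W ↔ t ∈ W₁ ∨ t ∈ W₂) (hd : ∀ t, t ∈ W₁ → t ∉ W₂) :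
    Za i W F j hW = Za i W₁ F j h1 + Za i W₂ F j h2 :=
  Subtype.ext (Zo_union h hd)

lemma Za_star_mul (i j : Idx) (W : Set Ca) (hW : Det W) :
    star (Za i W ∅ j hW) * Za i W ∅ j hW = Za j W ∅ j hW := by
  apply Subtype.ext
  show star (Zo i W ∅ j) * Zo i W ∅ j = Zo j W ∅ j
  rw [Zo_star, Zo_mul, symmDiff_self]
  apply Zo_ext
  intro t
  simp [mW, fl_empty]

lemma Za_mul_univ (i j : Idx) (W : Set Ca) (hW : Det W) :
    Za i W ∅ i hW * Za i Set.univ ∅ j det_univ = Za i W ∅ j hW := by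
  apply Subtype.ext
  show Zo i W ∅ i * Zo i Set.univ ∅ j = Zo i W ∅ j
  rw [Zo_mul, symmDiff_self]
  apply Zo_ext
  intro t
  simp [mW, fl_empty]

section Rep

universe v

variable {H : Type v} [NormedAddCommGroup H] [InnerProductSpace ℂ H] [CompleteSpace H]
variable (π : Alg →⋆ₙₐ[ℂ] (H →L[ℂ] H)) (j : Idx) (η : H)

/-- The finitely additive measure. -/
def mu (W : Set Ca) : ℝ :=
  if h : Det W then (inner ℂ η (π (Za j W ∅ j h) η) : ℂ).re else 0

lemma mu_eq {W : Set Ca} (h : Det W) :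
    mu π j η W = (inner ℂ η (π (Za j W ∅ j h) η) : ℂ).re := by
  unfold mu
  rw [dif_pos h]

lemma norm_sq_eq (i : Idx) {W : Set Ca} (h : Det W) :
    ‖π (Za i W ∅ j h) η‖ ^ 2 = mu π j η W := by
  rw [mu_eq π j η h, ← Za_star_mul i j W h, map_mul, map_star]
  have h1 : (star (π (Za i W ∅ j h)) * π (Za i W ∅ j h)) η
      = star (π (Za i W ∅ j h)) (π (Za i W ∅ j h) η) := rfl
  rw [h1, ContinuousLinearMap.star_eq_adjoint, ContinuousLinearMap.adjoint_inner_right]
  rw [inner_self_eq_norm_sq_to_K]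
  norm_cast

lemma mu_nonneg {W : Set Ca} (h : Det W) : 0 ≤ mu π j η W := by
  rw [← norm_sq_eq π j η j h]
  positivity

lemma mu_union {W W₁ W₂ : Set Ca} (hW : Det W) (h1 : Det W₁)
    (h2 : Det W₂) (h : ∀ t, t ∈ W ↔ t ∈ W₁ ∨ t ∈ W₂) (hd : ∀ t, t ∈ W₁ → t ∉ W₂) :
    mu π j η W = mu π j η W₁ + mu π j η W₂ := by
  rw [mu_eq π j η hW, mu_eq π j η h1, mu_eq π j η h2, Za_union hW h1 h2 h hd, map_add]
  have h3 : (π (Za j W₁ ∅ j h1) + π (Za j W₂ ∅ j h2)) η =
    π (Za j W₁ ∅ j h1) η + π (Za j W₂ ∅ j h2) η := rfl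
  rw [h3, inner_add_right, Complex.add_re]

lemma mu_mono {W W' : Set Ca} (hW : Det W) (hW' : Det W') (h : W ⊆ W') :
    mu π j η W ≤ mu π j η W' := by
  have h1 : mu π j η W' = mu π j η W + mu π j η (W' ∩ Wᶜ) := by
    apply mu_union π j η hW' hW (hW'.inter hW.compl)
    · intro t
      constructor
      · intro ht
        by_cases h2 : t ∈ W
        · exact Or.inl h2
        · exact Or.inr ⟨ht, h2⟩
      · rintro (h2 | h2)
        · exact h h2
        · exact h2.1
    · intro t ht ht'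
      exact ht'.2 ht
  have h2 := mu_nonneg π j η (hW'.inter hW.compl)
  linarith

lemma mu_halve (n : ℕ) (t : Ca) :
    mu π j η (cyl n t) = mu π j η (cyl (n + 1) t) + mu π j η (cyl (n + 1) (fl {n} t)) := by
  apply mu_union π j η (det_cyl _ _) (det_cyl _ _) (det_cyl _ _)
  · intro u
    constructor
    · intro hu
      by_cases h : t n = u n
      · left
        intro i hi
        rcases Nat.lt_or_ge i n with h1 | h1
        · exact hu i h1
        · obtain rfl : i = n := by omega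
          exact h
      · right
        intro i hi
        rcases Nat.lt_or_ge i n with h1 | h1
        · have : i ≠ n := by omega
          simp only [fl, Finset.mem_singleton, this, if_false]
          exact hu i h1
        · obtain rfl : i = n := by omega
          simp only [fl, Finset.mem_singleton, if_true]
          cases h2 : t i <;> cases h3 : u i <;> simp_all
    · rintro (h | h) i hi
      · exact h i (by omega)
      · have := h i (by omega)
        have hne : i ≠ n := by omega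
        simpa [fl, hne] using this
  · intro u h1 h2
    have h3 := h1 n (by omega)
    have h4 := h2 n (by omega)
    simp only [fl, Finset.mem_singleton, if_true] at h4
    rw [← h3] at h4
    simp at h4

lemma exists_small (n : ℕ) (t : Ca) (k : ℕ) :
    ∃ t', Ag n t t' ∧ mu π j η (cyl (n + k) t') ≤ mu π j η (cyl n t) / 2 ^ k := by
  induction k with
  | zero => exact ⟨t, Ag.refl _ _, by simp⟩
  | succ k ih =>
    obtain ⟨t', h1, h2⟩ := ih
    have h3 := mu_halve π j η (n + k) t'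
    have h4 : mu π j η (cyl (n + (k + 1)) t') ≤ mu π j η (cyl (n + k) t') / 2 ∨
        mu π j η (cyl (n + (k + 1)) (fl {n + k} t')) ≤ mu π j η (cyl (n + k) t') / 2 := by
      by_contra hcon
      push Not at hcon
      have h5 : n + (k + 1) = n + k + 1 := by ring
      rw [h5] at hcon
      linarith [hcon.1, hcon.2]
    have h6 : mu π j η (cyl (n + k) t') / 2 ≤ mu π j η (cyl n t) / 2 ^ (k + 1) := by
      rw [pow_succ, ← div_div]
      linarith
    rcases h4 with h | h
    · exact ⟨t', h1, h.trans h6⟩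
    · refine ⟨fl {n + k} t', ?_, h.trans h6⟩
      intro i hi
      have hne : i ≠ n + k := by omega
      simp only [fl, Finset.mem_singleton, hne, if_false]
      exact h1 i hi

lemma exists_small_code (c : Code) {ε : ℝ} (hε : 0 < ε) :
    ∃ c' : Code, (∃ t, t ∈ V c ∧ t ∈ V c') ∧ mu π j η (V c') ≤ ε := by
  set t : Ca := fun i => decide (i ∈ c.2) with ht
  have h1 : Tendsto (fun k : ℕ => mu π j η (cyl c.1 t) / 2 ^ k) atTop (𝓝 0) := by
    have := (tendsto_pow_atTop_nhds_zero_of_lt_one (r := (1 / 2 : ℝ)) (by norm_num)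
      (by norm_num)).const_mul (mu π j η (cyl c.1 t))
    rw [mul_zero] at this
    refine this.congr (fun k => ?_)
    rw [div_pow, one_pow, mul_one_div]
  obtain ⟨k, hk⟩ := ((tendsto_order.1 h1).2 ε hε).exists
  obtain ⟨t', h2, h3⟩ := exists_small π j η c.1 t k
  refine ⟨codeOf (c.1 + k) t', ⟨t', ?_, ?_⟩, ?_⟩
  · rw [V_eq_cyl]
    exact h2
  · rw [V_codeOf]
    exact Ag.refl _ _
  · rw [V_codeOf]
    exact h3.trans hk.le

/-- Choice of the cylinders. -/
lemma exists_codes (h0 : 0 < mu π j η Set.univ) :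
    ∃ c : ℕ → Code, (∀ (t : Ca) (n : ℕ), ∃ t', Ag n t t' ∧ ∃ m, t' ∈ V (c m)) ∧
      ∀ n, mu π j η (V (c n)) ≤ mu π j η Set.univ * (1 / 2) ^ (n + 2) := by
  obtain ⟨e, he⟩ := exists_surjective_nat Code
  have h1 : ∀ n, ∃ c' : Code, (∃ t, t ∈ V (e n) ∧ t ∈ V c') ∧
      mu π j η (V c') ≤ mu π j η Set.univ * (1 / 2) ^ (n + 2) :=
    fun n => exists_small_code π j η (e n) (by positivity)
  choose c hc hc' using h1
  refine ⟨c, ?_, hc'⟩
  intro t n
  obtain ⟨m, hm⟩ := he (codeOf n t)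
  obtain ⟨t', ht', ht''⟩ := hc m
  rw [hm, V_codeOf] at ht'
  exact ⟨t', ht', m, ht''⟩

lemma mu_U_lower (c : ℕ → Code)
    (hc : ∀ n, mu π j η (V (c n)) ≤ mu π j η Set.univ * (1 / 2) ^ (n + 2)) (N : ℕ) :
    mu π j η Set.univ * (1 / 2 + (1 / 2) ^ (N + 1)) ≤ mu π j η (U c N) := by
  induction N with
  | zero => rw [U_zero]; norm_num
  | succ N ih =>
    have h1 : mu π j η (U c N) = mu π j η (U c (N + 1)) + mu π j η (U c N ∩ V (c N)) := by
      apply mu_union π j η (det_U _ _) (det_U _ _) ((det_U _ _).inter (det_V _))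
      · intro t
        rw [U_succ]
        constructor
        · intro ht
          by_cases h2 : t ∈ V (c N)
          · exact Or.inr ⟨ht, h2⟩
          · exact Or.inl ⟨ht, h2⟩
        · rintro (h2 | h2)
          · exact h2.1
          · exact h2.1
      · intro t ht ht'
        rw [U_succ] at ht
        exact ht.2 ht'.2
    have h2 : mu π j η (U c N ∩ V (c N)) ≤ mu π j η (V (c N)) :=
      mu_mono π j η ((det_U _ _).inter (det_V _)) (det_V _) Set.inter_subset_right
    have h3 := hc N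
    have h4 : mu π j η Set.univ * (1 / 2 + (1 / 2) ^ (N + 1)) =
        mu π j η Set.univ * (1 / 2 + (1 / 2) ^ (N + 1 + 1)) +
        mu π j η Set.univ * (1 / 2) ^ (N + 2) := by
      rw [← mul_add]
      congr 1
      ring
    linarith

/-- The main step: given the cylinders and a good sequence, find a kernel vector. -/
lemma exists_kernel (a : Alg) (h0 : 0 < mu π j η Set.univ) (f : IdxI)
    (hc : ∀ n, mu π j η (V (cd f n)) ≤ mu π j η Set.univ * (1 / 2) ^ (n + 2))
    (hgood : Tendsto (fun N => ‖a * qq f N‖) atTop (𝓝 0)) :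
    ∃ ξ : H, ξ ≠ 0 ∧ π a ξ = 0 := by
  set x : ℕ → H := fun N => π (Za (Sum.inr f) (U (cd f) N) ∅ j (det_U _ _)) η with hx
  set m : ℕ → ℝ := fun N => mu π j η (U (cd f) N) with hm
  have hxm : ∀ N, ‖x N‖ ^ 2 = m N := fun N => norm_sq_eq π j η (Sum.inr f) (det_U _ _)
  have hsplit : ∀ N M, N ≤ M → ∀ t, t ∈ U (cd f) N ↔
      t ∈ U (cd f) M ∨ t ∈ U (cd f) N ∩ (U (cd f) M)ᶜ := by
    intro N M h t
    constructor
    · intro ht
      by_cases h2 : t ∈ U (cd f) M
      · exact Or.inl h2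
      · exact Or.inr ⟨ht, h2⟩
    · rintro (h2 | h2)
      · exact U_anti _ h h2
      · exact h2.1
  have hdisj : ∀ N M, ∀ t, t ∈ U (cd f) M → t ∉ U (cd f) N ∩ (U (cd f) M)ᶜ :=
    fun N M t ht ht' => ht'.2 ht
  have hdiff : ∀ N M, N ≤ M → ‖x N - x M‖ ^ 2 = m N - m M := by
    intro N M h
    have hD : Det (U (cd f) N ∩ (U (cd f) M)ᶜ) := (det_U _ _).inter (det_U _ _).compl
    have h1 : x N = x M + π (Za (Sum.inr f) (U (cd f) N ∩ (U (cd f) M)ᶜ) ∅ j hD) η := by
      simp only [hx]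
      rw [Za_union (det_U _ _) (det_U _ _) hD (hsplit N M h) (hdisj N M), map_add]
      rfl
    have h2 : m N = m M + mu π j η (U (cd f) N ∩ (U (cd f) M)ᶜ) :=
      mu_union π j η (det_U _ _) (det_U _ _) hD (hsplit N M h) (hdisj N M)
    rw [h1, add_sub_cancel_left, norm_sq_eq, h2]
    ring
  have hanti : Antitone m := fun N M h => by
    have := hdiff N M h
    have h2 : 0 ≤ ‖x N - x M‖ ^ 2 := by positivity
    linarith
  have hbdd : BddBelow (Set.range m) := ⟨0, by
    rintro _ ⟨N, rfl⟩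
    exact mu_nonneg π j η (det_U _ _)⟩
  have hcauchy_m : CauchySeq m := (tendsto_atTop_ciInf hanti hbdd).cauchySeq
  have hcauchy : CauchySeq x := by
    rw [Metric.cauchySeq_iff']
    intro ε hε
    obtain ⟨N, hN⟩ := Metric.cauchySeq_iff'.1 hcauchy_m (ε ^ 2) (by positivity)
    refine ⟨N, fun n hn => ?_⟩
    have h1 := hN n hn
    rw [Real.dist_eq, abs_sub_comm] at h1
    have h2 := hdiff N n hn
    rw [dist_comm, dist_eq_norm]
    have h3 : ‖x N - x n‖ ^ 2 < ε ^ 2 := by
      rw [h2]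
      exact lt_of_le_of_lt (le_abs_self _) h1
    exact lt_of_pow_lt_pow_left₀ 2 hε.le h3
  obtain ⟨ξ, hξ⟩ := cauchySeq_tendsto_of_complete hcauchy
  refine ⟨ξ, ?_, ?_⟩
  · intro h
    have h1 : Tendsto (fun N => ‖x N‖ ^ 2) atTop (𝓝 (‖ξ‖ ^ 2)) := (hξ.norm).pow 2
    have h2 : mu π j η Set.univ / 2 ≤ ‖ξ‖ ^ 2 := by
      apply ge_of_tendsto' h1
      intro N
      rw [hxm]
      have h3 := mu_U_lower π j η (cd f) hc N
      have h4 : 0 ≤ mu π j η Set.univ * (1 / 2) ^ (N + 1) := by positivity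
      simp only [hm]
      nlinarith [h3, h4]
    rw [h, norm_zero] at h2
    norm_num at h2
    linarith
  · have hmul : ∀ N, π a (x N) = π (a * qq f N) (π (Za (Sum.inr f) Set.univ ∅ j det_univ) η) := by
      intro N
      have h1 : x N = π (qq f N) (π (Za (Sum.inr f) Set.univ ∅ j det_univ) η) := by
        simp only [hx]
        rw [← Za_mul_univ (Sum.inr f) j (U (cd f) N) (det_U _ _), map_mul]
        rfl
      rw [h1, map_mul]
      rfl
    have h1 : Tendsto (fun N => π a (x N)) atTop (𝓝 (π a ξ)) :=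
      ((π a).continuous.tendsto ξ).comp hξ
    have h2 : Tendsto (fun N => π a (x N)) atTop (𝓝 0) := by
      apply squeeze_zero_norm (a := fun N => ‖a * qq f N‖ *
        ‖π (Za (Sum.inr f) Set.univ ∅ j det_univ) η‖)
      · intro N
        rw [hmul N]
        refine (ContinuousLinearMap.le_opNorm _ _).trans ?_
        gcongr
        exact NonUnitalStarAlgHom.norm_apply_le π _
      · have := hgood.mul_const (‖π (Za (Sum.inr f) Set.univ ∅ j det_univ) η‖)
        rwa [zero_mul] at this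
    exact tendsto_nhds_unique h1 h2

lemma not_countable_bool : ¬ (Set.univ : Set (ℕ → Bool)).Countable := by
  intro h
  have h1 : Countable (ℕ → Bool) := Set.countable_univ_iff.1 h
  obtain ⟨e, he⟩ := exists_surjective_nat (ℕ → Bool)
  obtain ⟨n, hn⟩ := he (fun n => !(e n n))
  have := congrFun hn n
  simp at this

theorem kernel_of_rep [Nontrivial H] (a : Alg) : ∃ ξ : H, ξ ≠ 0 ∧ π a ξ = 0 := by
  by_cases hall : ∀ j, π (Za j Set.univ ∅ j det_univ) = 0
  · -- the representation is zero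
    have h1 : ∀ (k : Idx) (W : Set Ca) (F : Finset ℕ) (l : Idx) (hW : Det W),
        Za k W F l hW ∈ LinearMap.ker (π : Alg →ₗ[ℂ] (H →L[ℂ] H)) := by
      intro k W F l hW
      refine gen_mem_J _ ?_ ?_ k W F l hW
      · intro x hx y
        have hx' : π x = 0 := hx
        constructor
        · show π (x * y) = 0
          rw [map_mul, hx', zero_mul]
        · show π (y * x) = 0
          rw [map_mul, hx', mul_zero]
      · intro k
        exact hall k
    have hcont : Continuous π := by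
      apply AddMonoidHomClass.continuous_of_bound π 1
      intro x
      rw [one_mul]
      exact NonUnitalStarAlgHom.norm_apply_le π x
    have hclosed : IsClosed ((LinearMap.ker (π : Alg →ₗ[ℂ] (H →L[ℂ] H)) : Submodule ℂ Alg) :
        Set Alg) := by
      have : ((LinearMap.ker (π : Alg →ₗ[ℂ] (H →L[ℂ] H)) : Submodule ℂ Alg) : Set Alg)
          = π ⁻¹' {0} := by
        ext x
        rfl
      rw [this]
      exact isClosed_singleton.preimage hcont
    have htop := eq_top_of_gens _ hclosed h1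
    have ha : a ∈ LinearMap.ker (π : Alg →ₗ[ℂ] (H →L[ℂ] H)) := by
      rw [htop]; trivial
    have ha' : π a = 0 := ha
    obtain ⟨ξ, hξ⟩ := exists_ne (0 : H)
    exact ⟨ξ, hξ, by rw [ha']; rfl⟩
  · push Not at hall
    obtain ⟨j, hj⟩ := hall
    have hex : ∃ η₁ : H, π (Za j Set.univ ∅ j det_univ) η₁ ≠ 0 := by
      by_contra hcon
      push Not at hcon
      apply hj
      ext1 v
      rw [hcon v]
      rfl
    obtain ⟨η₁, hη₁⟩ := hex
    have h0 : 0 < mu π j η₁ Set.univ := by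
      rw [← norm_sq_eq π j η₁ j det_univ]
      have := norm_pos_iff.2 hη₁
      positivity
    obtain ⟨c, hdense, hsmall⟩ := exists_codes π j η₁ h0
    -- the uncountable family
    set G : (ℕ → Bool) → IdxI := fun g => ⟨fun n => (c n, g n), hdense⟩ with hG
    have hinj : Function.Injective G := by
      intro g g' h
      funext n
      have h1 := congrFun (congrArg Subtype.val h) n
      exact (Prod.mk.inj h1).2
    have hgood : ∃ g, Tendsto (fun N => ‖a * qq (G g) N‖) atTop (𝓝 0) := by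
      by_contra hcon
      push Not at hcon
      apply not_countable_bool
      have h1 := (bad_alg a).preimage hinj
      apply h1.mono
      intro g _
      exact hcon g
    obtain ⟨g, hg⟩ := hgood
    exact exists_kernel π j η₁ a h0 (G g) hsmall hg

end Rep

end Pool.Agent.ZStar
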